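import Pool.Agent.P8H30.OX.Stm

/-!
# Project OX, package OWI: the inverse of the holomorphic part
-/

set_option autoImplicit false

open PowerSeries Module Matrix

namespace Pool.Agent.P8H71.OX

open Pool.Agent.Y113 (SDc)
open Pool.Agent.Y119.HZ (Hp km)
open Pool.Agent.P8H30.MX (bl HC bl_mul bl_one bl_castAdd bl_right bl_left bl_natAdd)
open Pool.Agent.P8H30.OX

theorem sdc_neg {f : ℚ⟦X⟧} (h : SDc f) : SDc (-f) := by
  have h1 := (Pool.Agent.Y119.HZ.SDc_C (-1)).mul h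
  rwa [map_neg, map_one, neg_one_mul] at h1

theorem sdc_zero : SDc (0 : ℚ⟦X⟧) := by
  have h1 := Pool.Agent.Y119.HZ.SDc_C 0
  rwa [map_zero] at h1

theorem sdc_bl {s n : ℕ} {a : Matrix (Fin s) (Fin s) ℚ⟦X⟧} {b : Matrix (Fin s) (Fin n) ℚ⟦X⟧}
    {g : Matrix (Fin n) (Fin n) ℚ⟦X⟧} (ha : ∀ i j, SDc (a i j)) (hb : ∀ i j, SDc (b i j))
    (hg : ∀ i j, SDc (g i j)) (i j : Fin (s + n)) : SDc (bl a b g i j) := by
  refine Fin.addCases (fun i' => ?_) (fun i' => ?_) i <;>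
    refine Fin.addCases (fun j' => ?_) (fun j' => ?_) j
  · rw [bl_castAdd]; exact ha _ _
  · rw [bl_right]; exact hb _ _
  · rw [bl_left]; exact sdc_zero
  · rw [bl_natAdd]; exact hg _ _

theorem sdc_one {s : ℕ} (i j : Fin s) : SDc ((1 : Matrix (Fin s) (Fin s) ℚ⟦X⟧) i j) := by
  rw [Matrix.one_apply]
  split_ifs
  · exact Pool.Agent.Y113.SDc.one
  · exact sdc_zero

/-- package OWI -/
theorem owi : S_FRP → S_JZ → Pool.Agent.P8H30.MX.S_BLK → S_OWI := by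
  intro hF hJ hB s n Q hQ h1 h2
  obtain ⟨M, hM⟩ : ∃ M : Matrix (Fin n) (Fin n) ℚ⟦X⟧,
      M = km (J0q n) - (X : ℚ⟦X⟧) • km (Em n Q) := ⟨_, rfl⟩
  obtain ⟨Wn, hWn⟩ : ∃ Wn : Matrix (Fin n) (Fin n) ℚ⟦X⟧,
      Wn = km (J0q n) * ((Hp n Q).transpose * M) := ⟨_, rfl⟩
  have hMs : ∀ i j, SDc (M i j) := by
    intro i j
    rw [hM, Matrix.sub_apply, Matrix.smul_apply, smul_eq_mul, sub_eq_add_neg]
    exact (Pool.Agent.Y119.HZ.SDc_km _ i j).add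
      (sdc_neg (Pool.Agent.Y113.SDc.X.mul (Pool.Agent.Y119.HZ.SDc_km _ i j)))
  have hWs : ∀ i j, SDc (Wn i j) := by
    rw [hWn]
    exact Pool.Agent.Y119.HZ.SDc_matmul (Pool.Agent.Y119.HZ.SDc_km _)
      (Pool.Agent.Y119.HZ.SDc_matmul (fun i j => h1 j i) hMs)
  have hWH : Wn * Hp n Q = 1 := by
    rw [hWn, Matrix.mul_assoc, hM, hF n Q hQ]
    unfold km
    rw [← map_mul, (hJ n hQ.odd).2.2.1, map_one]
  have hHW : Hp n Q * Wn = 1 := mul_eq_one_comm.1 hWH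
  refine ⟨bl 1 (-(HC s n Q * Wn)) Wn, ?_, ?_, ?_⟩
  · rw [hB, bl_mul, Matrix.one_mul, Matrix.one_mul, neg_add_cancel, hHW, bl_one]
  · intro i j
    rw [hB]
    exact sdc_bl sdc_one h2 h1 i j
  · intro i j
    refine sdc_bl sdc_one (fun i j => ?_) hWs i j
    rw [Matrix.neg_apply, Matrix.mul_apply]
    exact sdc_neg (Pool.Agent.Y119.HZ.SDc.sum' _ fun l _ => (h2 i l).mul (hWs l j))

end Pool.Agent.P8H71.OX
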